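import Pool.Agent.Helper31.BQ.Stmts2

/-! Sheet BQ, row BD: the differences of the functionals `bt`. -/

set_option autoImplicit false
set_option linter.unusedSectionVars false

namespace Pool.Agent.Helper64.BQ

open Filter Topology Pool.Agent.Helper31.BQ

section
variable {H : Type} [NormedAddCommGroup H] [InnerProductSpace ℝ H]

/-- the coordinate as a linear map -/
noncomputable def cdL (k : ℕ) (g : GG k) : WW H →ₗ[ℝ] H where
  toFun x := cd x k g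
  map_add' x y := by
    simp only [cd, lp.coeFn_add, Pi.add_apply]
  map_smul' c x := by
    simp only [cd, lp.coeFn_smul, Pi.smul_apply, RingHom.id_apply]

theorem cdL_apply (k : ℕ) (g : GG k) (x : WW H) : cdL k g x = cd x k g := rfl

theorem cd_le (x : WW H) (k : ℕ) (g : GG k) : ‖cd x k g‖ ≤ ‖x‖ := by
  have h1 : ‖(x : ∀ k, GG k → H) k‖ ≤ ‖x‖ := lp.norm_apply_le_norm (by norm_num) x k
  exact le_trans (norm_le_pi_norm ((x : ∀ k, GG k → H) k) g) h1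

/-- the norm of an element with three blocks -/
theorem blk (x : WW H) (k : ℕ) (a b c : ℝ) (ha : ‖(x : ∀ k, GG k → H) k‖ ≤ a)
    (hb : ‖(x : ∀ k, GG k → H) (k + 1)‖ ≤ b) (hc : ‖(x : ∀ k, GG k → H) (k + 2)‖ ≤ c)
    (hz : ∀ l, l ≠ k → l ≠ k + 1 → l ≠ k + 2 → (x : ∀ k, GG k → H) l = 0) :
    ‖x‖ ≤ a + b + c := by
  have hx : x = lp.single 2 k ((x : ∀ k, GG k → H) k) +
      lp.single 2 (k + 1) ((x : ∀ k, GG k → H) (k + 1)) +
      lp.single 2 (k + 2) ((x : ∀ k, GG k → H) (k + 2)) := by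
    apply lp.ext
    funext l
    rw [lp.coeFn_add, lp.coeFn_add, Pi.add_apply, Pi.add_apply]
    by_cases h0 : l = k
    · subst h0
      rw [lp.single_apply_self, lp.single_apply_ne _ _ _ (show l ≠ l + 1 by omega),
        lp.single_apply_ne _ _ _ (show l ≠ l + 2 by omega), add_zero, add_zero]
    · by_cases h1 : l = k + 1
      · subst h1
        rw [lp.single_apply_self, lp.single_apply_ne _ _ _ (show k + 1 ≠ k by omega),
          lp.single_apply_ne _ _ _ (show k + 1 ≠ k + 2 by omega), add_zero, zero_add]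
      · by_cases h2 : l = k + 2
        · subst h2
          rw [lp.single_apply_self, lp.single_apply_ne _ _ _ (show k + 2 ≠ k by omega),
            lp.single_apply_ne _ _ _ (show k + 2 ≠ k + 1 by omega), zero_add, zero_add]
        · rw [lp.single_apply_ne _ _ _ h0, lp.single_apply_ne _ _ _ h1,
            lp.single_apply_ne _ _ _ h2, hz l h0 h1 h2, add_zero, add_zero]
  have n0 : ‖lp.single (E := fun k : ℕ => (GG k → H)) 2 k ((x : ∀ k, GG k → H) k)‖ ≤ a := by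
    rw [lp.norm_single (by norm_num)]
    exact ha
  have n1 : ‖lp.single (E := fun k : ℕ => (GG k → H)) 2 (k + 1)
      ((x : ∀ k, GG k → H) (k + 1))‖ ≤ b := by
    rw [lp.norm_single (by norm_num)]
    exact hb
  have n2 : ‖lp.single (E := fun k : ℕ => (GG k → H)) 2 (k + 2)
      ((x : ∀ k, GG k → H) (k + 2))‖ ≤ c := by
    rw [lp.norm_single (by norm_num)]
    exact hc
  rw [hx]
  refine le_trans (norm_add_le _ _) (add_le_add (le_trans (norm_add_le _ _)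
    (add_le_add n0 n1)) n2)

end

theorem st_BD : ST_BD := by
  intro H _ _ _ J e w S T hS σ τ δ hC ξ hξ k R
  obtain ⟨hw, hJ, hJe, hek, -⟩ := hS
  obtain ⟨-, -, -, -, -, h6, h7, h8, -⟩ := hC
  -- the functionals
  let Lg : GG (k + 1) → EE J σ τ →ₗ[ℝ] ℝ := fun g =>
    (innerₛₗ ℝ w) ∘ₗ (J (k + 1)).toLinearMap ∘ₗ cdL (k + 1) g ∘ₗ (EE J σ τ).subtype ∘ₗ
      R.toLinearMap
  have hLg : ∀ g (x : EE J σ τ), Lg g x = inner ℝ w (J (k + 1) (cd (R x : WW H) (k + 1) g)) :=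
    fun g x => rfl
  have hLb : ∀ g (x : EE J σ τ), |Lg g x| ≤ ‖R‖ * ‖x‖ := by
    intro g x
    rw [hLg]
    refine le_trans (abs_real_inner_le_norm _ _) ?_
    rw [hw, one_mul]
    refine le_trans ((J (k + 1)).le_opNorm _) ?_
    refine le_trans (mul_le_of_le_one_left (norm_nonneg _) (hJ (k + 1))) ?_
    refine le_trans (cd_le _ _ _) ?_
    exact R.le_opNorm x
  have e1 : bt w J σ τ ξ k R = ((2 : ℝ) ^ (k + 1))⁻¹ * ∑ j, ((2 : ℝ) ^ (k + 3))⁻¹ *
      ∑ h, σ (k + 1) j h * Lg h (ξ k j) := by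
    unfold bt
    congr 1
    refine Finset.sum_congr rfl fun j _ => ?_
    have hcon : Con J σ τ ((R (ξ k j) : WW H) : ∀ k, GG k → H) := (R (ξ k j)).2
    have h := congrArg (fun v => inner ℝ w v) (hcon k j)
    simp only [inner_smul_right, inner_sum] at h
    exact h
  have e2 : bt w J σ τ ξ (k + 1) R = ((2 : ℝ) ^ (k + 2))⁻¹ * ∑ j, ((2 : ℝ) ^ (k + 3))⁻¹ *
      ∑ g, τ (k + 1) j g * Lg g (ξ (k + 1) j) := rfl
  let φ : GG (k + 1) → EE J σ τ := fun g =>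
    ((2 : ℝ) ^ (k + 2))⁻¹ • ∑ j, τ (k + 1) j g • ξ (k + 1) j -
      ((2 : ℝ) ^ (k + 1))⁻¹ • ∑ i, σ (k + 1) i g • ξ k i
  have e3 : bt w J σ τ ξ (k + 1) R - bt w J σ τ ξ k R =
      ((2 : ℝ) ^ (k + 3))⁻¹ * ∑ g, Lg g (φ g) := by
    have e4 : ∀ g, Lg g (φ g) = ((2 : ℝ) ^ (k + 2))⁻¹ * ∑ j, τ (k + 1) j g * Lg g (ξ (k + 1) j) -
        ((2 : ℝ) ^ (k + 1))⁻¹ * ∑ i, σ (k + 1) i g * Lg g (ξ k i) := by
      intro g
      show Lg g (((2 : ℝ) ^ (k + 2))⁻¹ • ∑ j, τ (k + 1) j g • ξ (k + 1) j -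
        ((2 : ℝ) ^ (k + 1))⁻¹ • ∑ i, σ (k + 1) i g • ξ k i) = _
      rw [map_sub, map_smul, map_smul, map_sum, map_sum]
      simp only [map_smul, smul_eq_mul]
    rw [e1, e2, Finset.sum_congr rfl fun g _ => e4 g, Finset.sum_sub_distrib, mul_sub]
    congr 1
    · rw [← Finset.mul_sum, ← Finset.mul_sum, Finset.sum_comm]
      ring
    · rw [← Finset.mul_sum, ← Finset.mul_sum, Finset.sum_comm]
      ring
  -- the norm of `φ g`
  have hcdφ : ∀ (g : GG (k + 1)) (l : ℕ) (h : GG l), cd (φ g : WW H) l h =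
      ((2 : ℝ) ^ (k + 2))⁻¹ • ∑ j, τ (k + 1) j g • cd (ξ (k + 1) j : WW H) l h -
      ((2 : ℝ) ^ (k + 1))⁻¹ • ∑ i, σ (k + 1) i g • cd (ξ k i : WW H) l h := by
    intro g l h
    have : cd (φ g : WW H) l h = (cdL l h ∘ₗ (EE J σ τ).subtype) (φ g) := rfl
    rw [this]
    show (cdL l h ∘ₗ (EE J σ τ).subtype) (((2 : ℝ) ^ (k + 2))⁻¹ • ∑ j, τ (k + 1) j g • ξ (k + 1) j -
        ((2 : ℝ) ^ (k + 1))⁻¹ • ∑ i, σ (k + 1) i g • ξ k i) = _
    rw [map_sub, map_smul, map_smul, map_sum, map_sum]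
    simp only [map_smul]
    rfl
  have hz1 : ∀ (i : Fin (2 ^ (k + 1))) (l : ℕ) (h : GG l), l ≠ k → l ≠ k + 1 →
      cd (ξ k i : WW H) l h = 0 := fun i l h hl hl' => (hξ k i).2.2 l hl hl' h
  have hz2 : ∀ (j : Fin (2 ^ (k + 2))) (l : ℕ) (h : GG l), l ≠ k + 1 → l ≠ k + 2 →
      cd (ξ (k + 1) j : WW H) l h = 0 := fun j l h hl hl' => (hξ (k + 1) j).2.2 l hl hl' h
  have hb0 : ∀ (g : GG (k + 1)) (h : GG k), ‖cd (φ g : WW H) k h‖ ≤ δ k * ((k : ℝ) + 2) := by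
    intro g h
    rw [hcdφ g k h]
    have s1 : ∑ j, τ (k + 1) j g • cd (ξ (k + 1) j : WW H) k h = 0 :=
      Finset.sum_eq_zero fun j _ => by rw [hz2 j k h (by omega) (by omega), smul_zero]
    have s2 : ∑ i, σ (k + 1) i g • cd (ξ k i : WW H) k h =
        (∑ i, τ k i h * σ (k + 1) i g) • e k := by
      rw [Finset.sum_smul]
      refine Finset.sum_congr rfl fun i _ => ?_
      rw [(hξ k i).1 h, smul_smul, mul_comm]
    rw [s1, s2, smul_zero, zero_sub, norm_neg, smul_smul, norm_smul, Real.norm_eq_abs]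
    exact mul_le_mul (h7 k h g) (hek k) (norm_nonneg _) (h8 k)
  have hb1 : ∀ (g h : GG (k + 1)), ‖cd (φ g : WW H) (k + 1) h‖ ≤
      δ (k + 1) * (((k + 1 : ℕ) : ℝ) + 2) := by
    intro g h
    rw [hcdφ g (k + 1) h]
    have s1 : ∑ j, τ (k + 1) j g • cd (ξ (k + 1) j : WW H) (k + 1) h =
        (∑ j, τ (k + 1) j g * τ (k + 1) j h) • e (k + 1) := by
      rw [Finset.sum_smul]
      refine Finset.sum_congr rfl fun j _ => ?_
      rw [(hξ (k + 1) j).1 h, smul_smul]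
    have s2 : ∑ i, σ (k + 1) i g • cd (ξ k i : WW H) (k + 1) h =
        (∑ i, σ (k + 1) i g * σ (k + 1) i h) • e (k + 1) := by
      rw [Finset.sum_smul]
      refine Finset.sum_congr rfl fun i _ => ?_
      rw [(hξ k i).2.1 h, smul_smul]
    rw [s1, s2, smul_smul, smul_smul, ← sub_smul, norm_smul, Real.norm_eq_abs, abs_sub_comm]
    exact mul_le_mul (h6 (k + 1) g h) (hek (k + 1)) (norm_nonneg _) (h8 (k + 1))
  have hb2 : ∀ (g : GG (k + 1)) (h : GG (k + 2)), ‖cd (φ g : WW H) (k + 2) h‖ ≤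
      δ (k + 1) * (((k + 2 : ℕ) : ℝ) + 2) := by
    intro g h
    rw [hcdφ g (k + 2) h]
    have s1 : ∑ j, τ (k + 1) j g • cd (ξ (k + 1) j : WW H) (k + 2) h =
        (∑ j, τ (k + 1) j g * σ (k + 2) j h) • e (k + 2) := by
      rw [Finset.sum_smul]
      refine Finset.sum_congr rfl fun j _ => ?_
      have := (hξ (k + 1) j).2.1 h
      rw [this, smul_smul]
    have s2 : ∑ i, σ (k + 1) i g • cd (ξ k i : WW H) (k + 2) h = 0 :=
      Finset.sum_eq_zero fun i _ => by rw [hz1 i (k + 2) h (by omega) (by omega), smul_zero]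
    rw [s1, s2, smul_zero, sub_zero, smul_smul, norm_smul, Real.norm_eq_abs]
    exact mul_le_mul (h7 (k + 1) g h) (hek (k + 2)) (norm_nonneg _) (h8 (k + 1))
  have hφ : ∀ g, ‖φ g‖ ≤ ((k : ℝ) + 4) * δ k + 2 * (((k + 1 : ℕ) : ℝ) + 4) * δ (k + 1) := by
    intro g
    have p0 : 0 ≤ δ k * ((k : ℝ) + 2) := mul_nonneg (h8 k) (by positivity)
    have p1 : 0 ≤ δ (k + 1) * (((k + 1 : ℕ) : ℝ) + 2) := mul_nonneg (h8 (k + 1)) (by positivity)
    have p2 : 0 ≤ δ (k + 1) * (((k + 2 : ℕ) : ℝ) + 2) := mul_nonneg (h8 (k + 1)) (by positivity)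
    have h := blk (φ g : WW H) k _ _ _ ((pi_norm_le_iff_of_nonneg p0).2 (hb0 g))
      ((pi_norm_le_iff_of_nonneg p1).2 (hb1 g)) ((pi_norm_le_iff_of_nonneg p2).2 (hb2 g)) (by
        intro l l0 l1 l2
        funext h
        have h3 := hcdφ g l h
        rw [Finset.sum_eq_zero fun j _ => by rw [hz2 j l h l1 l2, smul_zero],
          Finset.sum_eq_zero fun i _ => by rw [hz1 i l h l0 l1, smul_zero],
          smul_zero, smul_zero, sub_zero] at h3
        exact h3)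
    have h' : ‖φ g‖ = ‖(φ g : WW H)‖ := rfl
    rw [h']
    refine le_trans h ?_
    have d0 := h8 k
    have d1 := h8 (k + 1)
    push_cast
    nlinarith
  rw [e3, abs_mul, abs_of_pos (by positivity : (0 : ℝ) < ((2 : ℝ) ^ (k + 3))⁻¹)]
  have hsum : |∑ g, Lg g (φ g)| ≤ (2 : ℝ) ^ (k + 3) *
      (‖R‖ * (((k : ℝ) + 4) * δ k + 2 * (((k + 1 : ℕ) : ℝ) + 4) * δ (k + 1))) := by
    refine le_trans (Finset.abs_sum_le_sum_abs _ _) ?_
    refine le_trans (Finset.sum_le_sum fun g _ => le_trans (hLb g (φ g))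
      (mul_le_mul_of_nonneg_left (hφ g) (norm_nonneg R))) ?_
    rw [Finset.sum_const, nsmul_eq_mul]
    refine le_of_eq ?_
    congr 1
    simp [Fintype.card_bool]
  have h2 : (0 : ℝ) < (2 : ℝ) ^ (k + 3) := by positivity
  calc ((2 : ℝ) ^ (k + 3))⁻¹ * |∑ g, Lg g (φ g)| ≤ ((2 : ℝ) ^ (k + 3))⁻¹ * ((2 : ℝ) ^ (k + 3) *
      (‖R‖ * (((k : ℝ) + 4) * δ k + 2 * (((k + 1 : ℕ) : ℝ) + 4) * δ (k + 1)))) :=
        mul_le_mul_of_nonneg_left hsum (inv_pos.2 h2).le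
    _ = _ := by rw [← mul_assoc, inv_mul_cancel₀ h2.ne', one_mul]

end Pool.Agent.Helper64.BQ
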